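import Mathlib

/-! MP_b3a441_al: every Steiner loop is a homomorphic image of a Steiner loop in which
associativity propagates (the free Steiner loop, which has no Pasch configuration). -/

namespace Pool.Agent.Results.MP_b3a441_al.SteinerCover

/-- A Steiner loop: an identity element, commutativity and `x (x y) = y`. Unique divisibility
follows, since `a x = b` is equivalent to `x = a b`. -/
structure IsSteinerLoop (X : Type*) [Mul X] [One X] : Prop where
  one_mul : ∀ x : X, 1 * x = x
  comm : ∀ x y : X, x * y = y * x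
  steiner : ∀ x y : X, x * (x * y) = y

/-- The subloop generated by a set. -/
inductive Gen {X : Type*} [Mul X] [One X] (S : Set X) : X → Prop
  | one : Gen S 1
  | base {x : X} (h : x ∈ S) : Gen S x
  | mul {x y : X} (hx : Gen S x) (hy : Gen S y) : Gen S (x * y)

/-- Associativity propagates. -/
def AssocPropagates (X : Type*) [Mul X] [One X] : Prop :=
  ∀ x y z : X, x * (y * z) = (x * y) * z →
    ∀ a b c : X, Gen {x, y, z} a → Gen {x, y, z} b → Gen {x, y, z} c →
      a * (b * c) = (a * b) * c

section general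

variable {X : Type*} [Mul X] [One X]

theorem IsSteinerLoop.mul_one (h : IsSteinerLoop X) (x : X) : x * 1 = x := by
  rw [h.comm, h.one_mul]

theorem IsSteinerLoop.mul_self (h : IsSteinerLoop X) (x : X) : x * x = 1 := by
  have := h.steiner x 1
  rwa [h.mul_one] at this

theorem IsSteinerLoop.steiner' (h : IsSteinerLoop X) (x y : X) : y * (x * y) = x := by
  rw [h.comm x y, h.steiner]

/-- two elements generate an associative subloop -/
theorem two_gen (h : IsSteinerLoop X) (s t : X) (S : Set X)
    (hS : ∀ x ∈ S, x = 1 ∨ x = s ∨ x = t ∨ x = s * t) (a b c : X)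
    (ha : Gen S a) (hb : Gen S b) (hc : Gen S c) : a * (b * c) = (a * b) * c := by
  have e1 := h.one_mul
  have e2 := h.mul_one
  have e3 := h.mul_self
  have e4 : s * (s * t) = t := h.steiner s t
  have e5 : t * (s * t) = s := h.steiner' s t
  have e6 : (s * t) * s = t := by rw [h.comm]; exact e4
  have e7 : (s * t) * t = s := by rw [h.comm]; exact e5
  have e8 : t * s = s * t := h.comm t s
  have key : ∀ x, Gen S x → x = 1 ∨ x = s ∨ x = t ∨ x = s * t := by
    intro x hx
    induction hx with
    | one => exact Or.inl rfl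
    | base hx => exact hS _ hx
    | mul _ _ ih1 ih2 =>
      rcases ih1 with rfl | rfl | rfl | rfl <;> rcases ih2 with h' | h' | h' | h' <;>
        subst h' <;> simp [e1, e2, e3, e4, e5, e6, e7, e8]
  rcases key a ha with rfl | rfl | rfl | rfl <;> rcases key b hb with h' | h' | h' | h' <;>
    rcases key c hc with h'' | h'' | h'' | h'' <;> subst h' <;> subst h'' <;>
    simp [e1, e2, e3, e4, e5, e6, e7, e8]

end general

/-! ### The free Steiner loop -/

inductive T (A : Type*)
  | g (a : A) : T A
  | p (s t : T A) : T A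

open T

variable {A : Type*}

open Classical in
noncomputable instance : LinearOrder (T A) := linearOrderOfSTO (@WellOrderingRel (T A))

def size : T A → ℕ
  | g _ => 0
  | p s t => size s + size t + 1

/-- `s` is one of the two components of `t` -/
def ch (s : T A) : T A → Prop
  | g _ => False
  | p a b => s = a ∨ s = b

theorem ch_size {s t : T A} (h : ch s t) : size s < size t := by
  cases t with
  | g a => exact h.elim
  | p a b =>
    rcases h with rfl | rfl
    · show size s < size s + size b + 1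
      omega
    · show size s < size a + size s + 1
      omega

open Classical in
/-- the other component -/
noncomputable def oc (s : T A) : T A → T A
  | g a => g a
  | p a b => if s = a then b else a

/-- reduced terms -/
def red : T A → Prop
  | g _ => True
  | p s t => red s ∧ red t ∧ s < t ∧ ¬ ch s t ∧ ¬ ch t s

/-- the pair term -/
noncomputable def pr (s t : T A) : T A := if s < t then p s t else p t s

theorem pr_comm {s t : T A} (h : s ≠ t) : pr s t = pr t s := by
  unfold pr
  rcases lt_or_gt_of_ne h with h1 | h1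
  · rw [if_pos h1, if_neg (not_lt_of_gt h1)]
  · rw [if_neg (not_lt_of_gt h1), if_pos h1]

theorem ch_pr_left (s t : T A) : ch s (pr s t) := by
  unfold pr
  split_ifs
  · exact Or.inl rfl
  · exact Or.inr rfl

theorem ch_pr_right (s t : T A) : ch t (pr s t) := by
  unfold pr
  split_ifs
  · exact Or.inr rfl
  · exact Or.inl rfl

theorem oc_pr {s t : T A} (h : s ≠ t) : oc s (pr s t) = t := by
  unfold pr
  split_ifs
  · show (if s = s then t else s) = t
    rw [if_pos rfl]
  · show (if s = t then s else t) = t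
    rw [if_neg h]

theorem red_pr {s t : T A} (hs : red s) (ht : red t) (hne : s ≠ t) (h1 : ¬ ch s t)
    (h2 : ¬ ch t s) : red (pr s t) := by
  unfold pr
  rcases lt_or_gt_of_ne hne with h | h
  · rw [if_pos h]
    exact ⟨hs, ht, h, h1, h2⟩
  · rw [if_neg (not_lt_of_gt h)]
    exact ⟨ht, hs, h, h2, h1⟩

/-- structure of a reduced term with a component `s` -/
theorem red_ch {s t : T A} (ht : red t) (h : ch s t) : red s ∧ red (oc s t) ∧ s ≠ oc s t ∧
    ¬ ch s (oc s t) ∧ ¬ ch (oc s t) s ∧ t = pr s (oc s t) ∧ ch (oc s t) t := by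
  cases t with
  | g a => exact h.elim
  | p a b =>
    obtain ⟨ha, hb, hlt, h1, h2⟩ := ht
    by_cases hsa : s = a
    · subst hsa
      have e : oc s (p s b) = b := by
        show (if s = s then b else s) = b
        rw [if_pos rfl]
      rw [e]
      refine ⟨ha, hb, hlt.ne, h1, h2, ?_, Or.inr rfl⟩
      unfold pr
      rw [if_pos hlt]
    · have hsb : s = b := h.resolve_left hsa
      subst hsb
      have e : oc s (p a s) = a := by
        show (if s = a then s else a) = a
        rw [if_neg hsa]
      rw [e]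
      refine ⟨hb, ha, hlt.ne', h2, h1, ?_, Or.inl rfl⟩
      unfold pr
      rw [if_neg (not_lt_of_gt hlt)]

/-- the points -/
abbrev R (A : Type*) : Type _ := {t : T A // red t}

/-- the free Steiner loop -/
@[ext] structure FS (A : Type*) where
  v : Option (R A)

open Classical in
noncomputable def mulR (s t : R A) : Option (R A) :=
  if s = t then none
  else if h : ch s.1 t.1 then some ⟨oc s.1 t.1, (red_ch t.2 h).2.1⟩
  else if h : ch t.1 s.1 then some ⟨oc t.1 s.1, (red_ch s.2 h).2.1⟩
  else if hne : s.1 ≠ t.1 then some ⟨pr s.1 t.1, red_pr s.2 t.2 hne (by assumption)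
    (by assumption)⟩ else none

noncomputable instance : Mul (FS A) :=
  ⟨fun x y => ⟨match x.v, y.v with
    | none, y => y
    | some s, none => some s
    | some s, some t => mulR s t⟩⟩

instance : One (FS A) := ⟨⟨none⟩⟩

def pt (s : R A) : FS A := ⟨some s⟩

theorem pt_inj {s t : R A} (h : pt s = pt t) : s = t :=
  Option.some.inj (congrArg FS.v h)

theorem pt_ne_one (s : R A) : pt s ≠ 1 := by
  intro h
  have : (some s : Option (R A)) = none := congrArg FS.v h
  exact absurd this (by simp)

theorem cases_FS (x : FS A) : x = 1 ∨ ∃ s, x = pt s := by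
  obtain ⟨v⟩ := x
  cases v with
  | none => exact Or.inl rfl
  | some s => exact Or.inr ⟨s, rfl⟩

theorem one_mul' (x : FS A) : 1 * x = x := rfl

theorem pt_mul (s t : R A) : pt s * pt t = ⟨mulR s t⟩ := rfl

theorem pt_self (s : R A) : pt s * pt s = 1 := by
  rw [pt_mul]
  unfold mulR
  rw [if_pos rfl]
  rfl

theorem pt_ch {s t : R A} (h : ch s.1 t.1) :
    pt s * pt t = pt ⟨oc s.1 t.1, (red_ch t.2 h).2.1⟩ := by
  rw [pt_mul]
  unfold mulR
  rw [if_neg, dif_pos h]
  · rfl
  · rintro rfl
    exact absurd (ch_size h) (lt_irrefl _)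

theorem pt_ch' {s t : R A} (h : ch t.1 s.1) :
    pt s * pt t = pt ⟨oc t.1 s.1, (red_ch s.2 h).2.1⟩ := by
  rw [pt_mul]
  unfold mulR
  rw [if_neg, dif_neg, dif_pos h]
  · rfl
  · intro h'
    exact absurd (ch_size h) (not_lt_of_gt (ch_size h'))
  · rintro rfl
    exact absurd (ch_size h) (lt_irrefl _)

theorem pt_new {s t : R A} (hne : s.1 ≠ t.1) (h1 : ¬ ch s.1 t.1) (h2 : ¬ ch t.1 s.1) :
    pt s * pt t = pt ⟨pr s.1 t.1, red_pr s.2 t.2 hne h1 h2⟩ := by
  rw [pt_mul]
  unfold mulR
  rw [if_neg (fun h => hne (congrArg Subtype.val h)), dif_neg h1, dif_neg h2, dif_pos hne]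
  rfl

theorem comm' (x y : FS A) : x * y = y * x := by
  obtain rfl | ⟨s, rfl⟩ := cases_FS x
  · obtain rfl | ⟨t, rfl⟩ := cases_FS y
    · rfl
    · rfl
  · obtain rfl | ⟨t, rfl⟩ := cases_FS y
    · rfl
    · by_cases h0 : s = t
      · rw [h0]
      · have h0' : s.1 ≠ t.1 := fun h => h0 (Subtype.ext h)
        by_cases h1 : ch s.1 t.1
        · rw [pt_ch h1, pt_ch' h1]
        · by_cases h2 : ch t.1 s.1
          · rw [pt_ch h2, pt_ch' h2]
          · rw [pt_new h0' h1 h2, pt_new (Ne.symm h0') h2 h1]
            congr 1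
            exact Subtype.ext (pr_comm h0')

theorem steiner_FS (x y : FS A) : x * (x * y) = y := by
  obtain rfl | ⟨s, rfl⟩ := cases_FS x
  · rfl
  · obtain rfl | ⟨t, rfl⟩ := cases_FS y
    · have : pt s * 1 = pt s := rfl
      rw [this, pt_self]
    · by_cases h0 : s = t
      · rw [h0, pt_self]; rfl
      · have h0' : s.1 ≠ t.1 := fun h => h0 (Subtype.ext h)
        by_cases h1 : ch s.1 t.1
        · rw [pt_ch h1]
          obtain ⟨_, _, h3, h4, h5, h6, _⟩ := red_ch t.2 h1
          rw [pt_new h3 h4 h5]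
          congr 1
          exact Subtype.ext h6.symm
        · by_cases h2 : ch t.1 s.1
          · rw [pt_ch' h2]
            obtain ⟨_, _, h3, h4, h5, h6, h7⟩ := red_ch s.2 h2
            have h8 : ch (⟨oc t.1 s.1, (red_ch s.2 h2).2.1⟩ : R A).1 s.1 := h7
            rw [pt_ch' h8]
            congr 1
            apply Subtype.ext
            show oc (oc t.1 s.1) s.1 = t.1
            have h9 : s.1 = pr (oc t.1 s.1) t.1 := by
              rw [pr_comm (Ne.symm h3)]
              exact h6
            have h10 : oc (oc t.1 s.1) (pr (oc t.1 s.1) t.1) = t.1 := oc_pr (Ne.symm h3)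
            rw [← h9] at h10
            exact h10
          · rw [pt_new h0' h1 h2]
            have h8 : ch s.1 (⟨pr s.1 t.1, red_pr s.2 t.2 h0' h1 h2⟩ : R A).1 := ch_pr_left _ _
            rw [pt_ch h8]
            congr 1
            exact Subtype.ext (oc_pr h0')

theorem steinerLoop_FS : IsSteinerLoop (FS A) := ⟨one_mul', comm', steiner_FS⟩

/-- `c` is the top of the line with other points `a`, `b` -/
def Top (c a b : R A) : Prop := c.1 = pr a.1 b.1 ∧ a.1 ≠ b.1

theorem Top.size_lt {c a b : R A} (h : Top c a b) : size a.1 < size c.1 ∧ size b.1 < size c.1 := by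
  rw [h.1]
  exact ⟨ch_size (ch_pr_left _ _), ch_size (ch_pr_right _ _)⟩

theorem pr_eq {a b c d : T A} (h : pr a b = pr c d) : (a = c ∧ b = d) ∨ (a = d ∧ b = c) := by
  unfold pr at h
  split_ifs at h
  · obtain ⟨h1, h2⟩ := T.p.inj h
    exact Or.inl ⟨h1, h2⟩
  · obtain ⟨h1, h2⟩ := T.p.inj h
    exact Or.inr ⟨h1, h2⟩
  · obtain ⟨h1, h2⟩ := T.p.inj h
    exact Or.inr ⟨h2, h1⟩
  · obtain ⟨h1, h2⟩ := T.p.inj h
    exact Or.inl ⟨h2, h1⟩

theorem Top.uniq {c a b a' b' : R A} (h : Top c a b) (h' : Top c a' b') :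
    (a = a' ∧ b = b') ∨ (a = b' ∧ b = a') := by
  rcases pr_eq (h.1.symm.trans h'.1) with ⟨h1, h2⟩ | ⟨h1, h2⟩
  · exact Or.inl ⟨Subtype.ext h1, Subtype.ext h2⟩
  · exact Or.inr ⟨Subtype.ext h1, Subtype.ext h2⟩

/-- each line has a top -/
theorem line_top {a b c : R A} (hab : a ≠ b) (h : pt a * pt b = pt c) :
    Top c a b ∨ Top a b c ∨ Top b a c := by
  have hab' : a.1 ≠ b.1 := fun h => hab (Subtype.ext h)
  by_cases h1 : ch a.1 b.1
  · rw [pt_ch h1] at h
    obtain ⟨_, _, h3, _, _, h6, _⟩ := red_ch b.2 h1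
    have h7 := congrArg Subtype.val (pt_inj h)
    simp only at h7
    rw [h7] at h6 h3
    exact Or.inr (Or.inr ⟨h6, h3⟩)
  · by_cases h2 : ch b.1 a.1
    · rw [pt_ch' h2] at h
      obtain ⟨_, _, h3, _, _, h6, _⟩ := red_ch a.2 h2
      have h7 := congrArg Subtype.val (pt_inj h)
      simp only at h7
      rw [h7] at h6 h3
      exact Or.inr (Or.inl ⟨h6, h3⟩)
    · rw [pt_new hab' h1 h2] at h
      have h7 := congrArg Subtype.val (pt_inj h)
      exact Or.inl ⟨h7.symm, hab'⟩

/-- a point of maximal size on a line is its top -/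
theorem top_of_max {a b c : R A} (hab : a ≠ b) (h : pt a * pt b = pt c)
    (h1 : size b.1 ≤ size a.1) (h2 : size c.1 ≤ size a.1) : Top a b c := by
  rcases line_top hab h with h3 | h3 | h3
  · have := h3.size_lt
    omega
  · exact h3
  · have := h3.size_lt
    omega

/-- Two lines through a common point of maximal size coincide. -/
theorem same_line {a b c b' c' : R A} (hab : a ≠ b) (h : pt a * pt b = pt c)
    (hab' : a ≠ b') (h' : pt a * pt b' = pt c')
    (h1 : size b.1 ≤ size a.1) (h2 : size c.1 ≤ size a.1)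
    (h3 : size b'.1 ≤ size a.1) (h4 : size c'.1 ≤ size a.1) : b = b' ∨ b = c' := by
  rcases (top_of_max hab h h1 h2).uniq (top_of_max hab' h' h3 h4) with h | h
  · exact Or.inl h.1
  · exact Or.inr h.1

theorem no_pasch (x y z : FS A) (h : x * (y * z) = (x * y) * z) :
    x = 1 ∨ y = 1 ∨ z = 1 ∨ x = y ∨ y = z ∨ x = z ∨ z = x * y := by
  by_contra hcon
  push Not at hcon
  obtain ⟨hx1, hy1, hz1, hxy, hyz, hxz, hzxy⟩ := hcon
  have L := steinerLoop_FS (A := A)
  -- products of distinct points are points
  have hprod : ∀ a b : FS A, a ≠ b → a * b ≠ 1 := by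
    intro a b hab h1
    apply hab
    have := L.steiner a b
    rw [h1, L.mul_one] at this
    exact this
  have hcancel : ∀ a b c : FS A, a * b = a * c → b = c := by
    intro a b c h1
    rw [← L.steiner a b, h1, L.steiner]
  obtain ⟨u, hu⟩ : ∃ u, u = y * z := ⟨_, rfl⟩
  obtain ⟨v, hv⟩ : ∃ v, v = x * y := ⟨_, rfl⟩
  obtain ⟨w, hw⟩ : ∃ w, w = x * u := ⟨_, rfl⟩
  have hw' : w = v * z := by rw [hw, hu, hv, h]
  have hu1 : u ≠ 1 := by rw [hu]; exact hprod _ _ hyz
  have hv1 : v ≠ 1 := by rw [hv]; exact hprod _ _ hxy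
  have hvz : v ≠ z := by rw [hv]; exact Ne.symm hzxy
  have hw1 : w ≠ 1 := by rw [hw']; exact hprod _ _ hvz
  have hxu : x ≠ u := by
    intro h1
    apply hw1
    rw [hw, ← h1, L.mul_self]
  -- the six points
  obtain rfl | ⟨x, rfl⟩ := cases_FS x
  · exact hx1 rfl
  obtain rfl | ⟨y, rfl⟩ := cases_FS y
  · exact hy1 rfl
  obtain rfl | ⟨z, rfl⟩ := cases_FS z
  · exact hz1 rfl
  obtain rfl | ⟨u, rfl⟩ := cases_FS u
  · exact hu1 rfl
  obtain rfl | ⟨v, rfl⟩ := cases_FS v
  · exact hv1 rfl
  obtain rfl | ⟨w, rfl⟩ := cases_FS w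
  · exact hw1 rfl
  -- all the line relations
  have l1 : pt y * pt z = pt u := hu.symm
  have l1' : pt z * pt y = pt u := by rw [L.comm]; exact l1
  have l2 : pt u * pt y = pt z := by rw [L.comm, ← l1, L.steiner]
  have l3 : pt x * pt y = pt v := hv.symm
  have l3' : pt y * pt x = pt v := by rw [L.comm]; exact l3
  have l4 : pt v * pt x = pt y := by rw [L.comm, ← l3, L.steiner]
  have l5 : pt x * pt u = pt w := hw.symm
  have l5' : pt u * pt x = pt w := by rw [L.comm]; exact l5
  have l6 : pt w * pt x = pt u := by rw [L.comm, ← l5, L.steiner]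
  have l7 : pt v * pt z = pt w := hw'.symm
  have l7' : pt z * pt v = pt w := by rw [L.comm]; exact l7
  have l8 : pt w * pt z = pt v := by rw [L.comm, ← l7', L.steiner]
  have ne : ∀ {a b : R A}, pt a ≠ pt b → a ≠ b := fun h1 h2 => h1 (congrArg pt h2)
  -- a b = c with c a point gives a different from b, b different from c
  have dist : ∀ {a b c : R A}, pt a * pt b = pt c → a ≠ b := by
    intro a b c h1 h2
    rw [h2, L.mul_self] at h1
    exact pt_ne_one _ h1.symm
  have eqs : ∀ {a b : R A}, a = b → pt a = pt b := fun h => congrArg pt h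
  have hyu : pt y ≠ pt u := by
    intro h1
    have : pt y * pt z = pt y * 1 := by rw [l1, ← h1, L.mul_one]
    exact hz1 (hcancel _ _ _ this)
  have hyw : pt y = pt w → pt v = pt u := by
    intro h1
    rw [← l3, h1, L.comm, l6]
  have hvu : pt v ≠ pt u := by
    intro h1
    rw [← l3, ← l1, L.comm] at h1
    exact hxz (hcancel _ _ _ h1)
  -- find a point of maximal size
  have hmax : ∃ P ∈ ({x, y, z, u, v, w} : Set (R A)), ∀ Q ∈ ({x, y, z, u, v, w} : Set (R A)),
      size Q.1 ≤ size P.1 := by
    have hfin : ({x, y, z, u, v, w} : Set (R A)).Finite := by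
      simp only [Set.finite_insert, Set.finite_singleton]
    exact Set.exists_max_image _ (fun Q : R A => size Q.1) hfin ⟨x, by simp⟩
  obtain ⟨P, hP, hmax⟩ := hmax
  have mx := hmax x (by simp)
  have my := hmax y (by simp)
  have mz := hmax z (by simp)
  have mu := hmax u (by simp)
  have mv := hmax v (by simp)
  have mw := hmax w (by simp)
  simp only [Set.mem_insert_iff, Set.mem_singleton_iff] at hP
  rcases hP with rfl | rfl | rfl | rfl | rfl | rfl
  · -- P = x : lines {x,y,v}, {x,u,w}
    rcases same_line (dist l3) l3 (dist l5) l5 my mv mu mw with h1 | h1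
    · exact hyu (eqs h1)
    · exact hvu (hyw (eqs h1))
  · -- P = y : lines {y,z,u}, {y,x,v}
    rcases same_line (dist l1) l1 (dist l3') l3' mz mu mx mv with h1 | h1
    · exact hxz (eqs h1).symm
    · exact hvz (eqs h1).symm
  · -- P = z : lines {z,y,u}, {z,v,w}
    rcases same_line (dist l1') l1' (dist l7') l7' my mu mv mw with h1 | h1
    · have h2 : pt P * pt y = pt P * pt v := by rw [h1]
      rw [l1', l7'] at h2
      -- u = w then x = 1
      have h3 : pt x * pt u = 1 * pt u := by rw [l5, ← h2, L.one_mul]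
      rw [L.comm (pt x), L.comm 1] at h3
      exact hx1 (hcancel _ _ _ h3)
    · exact hvu (hyw (eqs h1))
  · -- P = u : lines {u,y,z}, {u,x,w}
    rcases same_line (dist l2) l2 (dist l5') l5' my mz mx mw with h1 | h1
    · exact hxy (eqs h1).symm
    · exact hvu (hyw (eqs h1))
  · -- P = v : lines {v,x,y}, {v,z,w}
    rcases same_line (dist l4) l4 (dist l7) l7 mx my mz mw with h1 | h1
    · exact hxz (eqs h1)
    · -- x = w, then u = 1
      have h2 : pt x * pt u = pt x * 1 := by rw [l5, ← h1, L.mul_one]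
      exact hu1 (hcancel _ _ _ h2)
  · -- P = w : lines {w,x,u}, {w,z,v}
    rcases same_line (dist l6) l6 (dist l8) l8 mx mu mz mv with h1 | h1
    · exact hxz (eqs h1)
    · -- x = v, then y = 1
      have h2 : pt x * pt y = pt x * 1 := by rw [l3, ← h1, L.mul_one]
      exact hy1 (hcancel _ _ _ h2)

theorem propagates : AssocPropagates (FS A) := by
  intro x y z h a b c ha hb hc
  have L := steinerLoop_FS (A := A)
  rcases no_pasch x y z h with h1 | h1 | h1 | h1 | h1 | h1 | h1
  · refine two_gen L y z {x, y, z} ?_ a b c ha hb hc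
    rintro t (rfl | rfl | rfl)
    · exact Or.inl h1
    · exact Or.inr (Or.inl rfl)
    · exact Or.inr (Or.inr (Or.inl rfl))
  · refine two_gen L x z {x, y, z} ?_ a b c ha hb hc
    rintro t (rfl | rfl | rfl)
    · exact Or.inr (Or.inl rfl)
    · exact Or.inl h1
    · exact Or.inr (Or.inr (Or.inl rfl))
  · refine two_gen L x y {x, y, z} ?_ a b c ha hb hc
    rintro t (rfl | rfl | rfl)
    · exact Or.inr (Or.inl rfl)
    · exact Or.inr (Or.inr (Or.inl rfl))
    · exact Or.inl h1
  · refine two_gen L y z {x, y, z} ?_ a b c ha hb hc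
    rintro t (rfl | rfl | rfl)
    · exact Or.inr (Or.inl h1)
    · exact Or.inr (Or.inl rfl)
    · exact Or.inr (Or.inr (Or.inl rfl))
  · refine two_gen L x z {x, y, z} ?_ a b c ha hb hc
    rintro t (rfl | rfl | rfl)
    · exact Or.inr (Or.inl rfl)
    · exact Or.inr (Or.inr (Or.inl h1))
    · exact Or.inr (Or.inr (Or.inl rfl))
  · refine two_gen L y z {x, y, z} ?_ a b c ha hb hc
    rintro t (rfl | rfl | rfl)
    · exact Or.inr (Or.inr (Or.inl h1))
    · exact Or.inr (Or.inl rfl)
    · exact Or.inr (Or.inr (Or.inl rfl))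
  · refine two_gen L x y {x, y, z} ?_ a b c ha hb hc
    rintro t (rfl | rfl | rfl)
    · exact Or.inr (Or.inl rfl)
    · exact Or.inr (Or.inr (Or.inl rfl))
    · exact Or.inr (Or.inr (Or.inr h1))

/-! ### The homomorphism -/

/-- evaluation of terms in a loop -/
def evT {F : Type*} [Mul F] : T F → F
  | g a => a
  | p s t => evT s * evT t

theorem ev_pr {F : Type*} [Mul F] [One F] (hF : IsSteinerLoop F) (s t : T F) :
    evT (pr s t) = evT s * evT t := by
  unfold pr
  split_ifs
  · rfl
  · exact hF.comm _ _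

def ev {F : Type*} [Mul F] [One F] (x : FS F) : F :=
  match x.v with
  | none => 1
  | some s => evT s.1

theorem ev_mul {F : Type*} [Mul F] [One F] (hF : IsSteinerLoop F) (x y : FS F) :
    ev (x * y) = ev x * ev y := by
  obtain rfl | ⟨s, rfl⟩ := cases_FS x
  · exact (hF.one_mul _).symm
  · obtain rfl | ⟨t, rfl⟩ := cases_FS y
    · exact (hF.mul_one _).symm
    · show ev (pt s * pt t) = evT s.1 * evT t.1
      by_cases h0 : s = t
      · rw [h0, pt_self, hF.mul_self]
        rfl
      · have h0' : s.1 ≠ t.1 := fun h => h0 (Subtype.ext h)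
        by_cases h1 : ch s.1 t.1
        · rw [pt_ch h1]
          show evT (oc s.1 t.1) = _
          obtain ⟨_, _, h3, h4, h5, h6, _⟩ := red_ch t.2 h1
          have h7 : evT t.1 = evT s.1 * evT (oc s.1 t.1) := by
            rw [← ev_pr hF, ← h6]
          rw [h7, hF.steiner]
        · by_cases h2 : ch t.1 s.1
          · rw [pt_ch' h2]
            show evT (oc t.1 s.1) = _
            obtain ⟨_, _, h3, h4, h5, h6, _⟩ := red_ch s.2 h2
            have h7 : evT s.1 = evT t.1 * evT (oc t.1 s.1) := by
              rw [← ev_pr hF, ← h6]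
            rw [h7, hF.comm, hF.steiner]
          · rw [pt_new h0' h1 h2]
            exact ev_pr hF _ _

/-- Every Steiner loop is a homomorphic image of a Steiner loop in which associativity
propagates. -/
theorem result.{u} (F : Type u) [Mul F] [One F] (hF : IsSteinerLoop F) :
    ∃ (X : Type u) (_ : Mul X) (_ : One X), IsSteinerLoop X ∧ AssocPropagates X ∧
      ∃ f : X → F, (∀ x y, f (x * y) = f x * f y) ∧ Function.Surjective f :=
  ⟨FS F, inferInstance, inferInstance, steinerLoop_FS, propagates, ev, ev_mul hF,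
    fun a => ⟨pt ⟨g a, trivial⟩, rfl⟩⟩

end Pool.Agent.Results.MP_b3a441_al.SteinerCover
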